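import Mathlib
import Pool.Agent.H52.RTri2

namespace Pool.Agent.Results.MP_49a3fa_co.No
open MeasureTheory Pointwise Real

/-- A (non-degenerate, closed, solid) right triangle in the Euclidean plane. -/
def IsRightTriangle (T : Set (EuclideanSpace ℝ (Fin 2))) : Prop :=
  ∃ O P Q : EuclideanSpace ℝ (Fin 2), P ≠ O ∧ Q ≠ O ∧ EuclideanGeometry.angle P O Q = π / 2 ∧
    T = convexHull ℝ {O, P, Q}

open Pool.Agent.H52.RTri2

theorem result : ∃ K : Set (EuclideanSpace ℝ (Fin 2)), IsCompact K ∧ Convex ℝ K ∧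
    (interior K).Nonempty ∧ volume K = 1 ∧
      ∀ T, IsRightTriangle T → K ⊆ T → 2 < volume T := by
  have hv0 : volume K0 ≠ 0 :=
    (MeasureTheory.Measure.measure_pos_of_nonempty_interior volume ⟨_, K0_int⟩).ne'
  have hv1 : volume K0 ≠ ⊤ := K0_cpt.measure_lt_top.ne
  obtain ⟨v, hv⟩ : ∃ v, v = (volume K0).toReal := ⟨_, rfl⟩
  have hvp : 0 < v := hv ▸ ENNReal.toReal_pos hv0 hv1
  have hvK : volume K0 = ENNReal.ofReal v := by rw [hv, ENNReal.ofReal_toReal hv1]
  obtain ⟨k, hk⟩ : ∃ k, k = κ.toReal := ⟨_, rfl⟩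
  have hk0 : 0 ≤ k := hk ▸ ENNReal.toReal_nonneg
  have hkκ : κ = ENNReal.ofReal k := by rw [hk, ENNReal.ofReal_toReal κ_fin]
  have hvk : v ≤ 19096396 * k := by
    have := K0_vol
    rw [hvK, hkκ, ← ENNReal.ofReal_mul (by norm_num)] at this
    exact (ENNReal.ofReal_le_ofReal_iff (by positivity)).mp this
  have hs : 0 < √v := sqrt_pos.mpr hvp
  have hss : √v * √v = v := mul_self_sqrt hvp.le
  refine ⟨(√v)⁻¹ • K0, K0_cpt.smul _, K0_cvx.smul _, ?_, ?_, ?_⟩
  · rw [interior_smul₀ (inv_ne_zero hs.ne')]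
    exact Set.Nonempty.smul_set ⟨_, K0_int⟩
  · rw [Measure.addHaar_smul, hvK, ← ENNReal.ofReal_mul (abs_nonneg _), finrank_euclideanSpace_fin,
      inv_pow, sq_sqrt hvp.le, abs_of_pos (inv_pos.mpr hvp), inv_mul_cancel₀ hvp.ne']
    simp
  · rintro T ⟨O, P, Q, hP, hQ, hang, rfl⟩ hK
    have hin : inner ℝ (P - O) (Q - O) = 0 :=
      (InnerProductGeometry.inner_eq_zero_iff_angle_eq_pi_div_two _ _).mpr hang
    have hperp : (P 0 - O 0) * (Q 0 - O 0) + (P 1 - O 1) * (Q 1 - O 1) = 0 := by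
      simp [PiLp.inner_apply, Fin.sum_univ_two] at hin
      linarith
    have hsub : K0 ⊆ convexHull ℝ {√v • O, √v • P, √v • Q} := by
      intro z hz
      have h1 : √v • ((√v)⁻¹ • z) ∈ √v • convexHull ℝ ({O, P, Q} : Set E2) :=
        Set.smul_mem_smul_set (hK (Set.smul_mem_smul_set hz))
      rw [smul_inv_smul₀ hs.ne', ← convexHull_smul, Set.smul_set_insert, Set.smul_set_insert,
        Set.smul_set_singleton] at h1
      exact h1
    have h2 := main0 _ _ _ (fun e => hP (smul_right_injective _ hs.ne' e))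
      (fun e => hQ (smul_right_injective _ hs.ne' e))
      (by simp only [PiLp.smul_apply, smul_eq_mul]; linear_combination (√v * √v) * hperp) hsub
    have h3 : o (√v • O) (√v • P) (√v • Q) = v * o O P Q := by
      simp only [o, PiLp.smul_apply, smul_eq_mul]
      linear_combination ((P 0 - O 0) * (Q 1 - O 1) - (P 1 - O 1) * (Q 0 - O 0)) * hss
    rw [h3, abs_mul, abs_of_pos hvp] at h2
    rw [vol_tri, hkκ, ← ENNReal.ofReal_mul (abs_nonneg _), ← ENNReal.ofReal_ofNat 2]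
    have h4 : 2 < |o O P Q| * k := by
      nlinarith [mul_le_mul_of_nonneg_right hvk (abs_nonneg (o O P Q))]
    exact (ENNReal.ofReal_lt_ofReal_iff (by linarith)).mpr h4

end Pool.Agent.Results.MP_49a3fa_co.No
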